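import Pool.Agent.H1.NodC

open MeasureTheory
open scoped ENNReal

theorem Pool.Agent.Results.MP_a2f83a_an.Disproof.result (n : ℕ) (hn : 3 ≤ n) (k : ℕ)
    (ε : ℝ≥0∞) (hε : 0 < ε) :
    ∃ u : EuclideanSpace ℝ (Fin n) → ℝ, InnerProductSpace.HarmonicOnNhd u Set.univ ∧
      (∃ x, ‖x‖ < 1 ∧ u x ≠ 0) ∧ (∀ j < k, iteratedFDeriv ℝ j u 0 = 0) ∧
      μH[(n : ℝ) - 2] {x | ‖x‖ = 1 / 2 ∧ u x = 0} < ε := by
  obtain ⟨d, rfl⟩ : ∃ d, n = d + 2 := ⟨n - 2, by omega⟩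
  have e : ((d + 2 : ℕ) : ℝ) - 2 = d := by push_cast; ring
  rw [e]
  exact Pool.Agent.H1.Nod.main (by omega) k ε hε
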